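import Pool.Agent.N463.MI.Stm

/-!
# Project MI (helper463), part E06: the main integral (helper433)
-/

set_option autoImplicit false

open MeasureTheory

noncomputable section

namespace Pool.Agent.N433.MI

open Pool.Agent.N463.MI

/-- `log (1 + e^{-v}) ≥ log 2 - v / 2 + v² / 9` for `0 ≤ v ≤ 1` -/
theorem log_lower (v : ℝ) (h0 : 0 ≤ v) (h1 : v ≤ 1) :
    Real.log 2 - v / 2 + v ^ 2 / 9 ≤ Real.log (1 + Real.exp (-v)) := by
  have e1 : 1 + Real.exp (-v) = 2 * Real.cosh (v / 2) * Real.exp (-(v / 2)) := by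
    rw [Real.cosh_eq]
    have h2 : Real.exp (v / 2) * Real.exp (-(v / 2)) = 1 := by
      rw [← Real.exp_add]; simp
    have h3 : Real.exp (-(v / 2)) * Real.exp (-(v / 2)) = Real.exp (-v) := by
      rw [← Real.exp_add]; congr 1; ring
    linear_combination -h2 - h3
  have hc : 1 + (v / 2) ^ 2 / 2 ≤ Real.cosh (v / 2) := by
    have h2 : v / 4 ≤ Real.sinh (v / 4) := Real.self_le_sinh_iff.2 (by linarith)
    have h3 : Real.cosh (v / 2) = 1 + 2 * Real.sinh (v / 4) ^ 2 := by
      have h4 : v / 2 = 2 * (v / 4) := by ring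
      rw [h4, Real.cosh_two_mul, Real.cosh_sq]
      ring
    rw [h3]
    nlinarith
  have hexp : Real.exp (v ^ 2 / 9) ≤ Real.cosh (v / 2) := by
    have h2 : 1 - v ^ 2 / 9 ≤ Real.exp (-(v ^ 2 / 9)) := by
      have := Real.add_one_le_exp (-(v ^ 2 / 9))
      linarith
    have h3 : Real.exp (v ^ 2 / 9) * Real.exp (-(v ^ 2 / 9)) = 1 := by
      rw [← Real.exp_add]; simp
    have h4 : 0 < Real.exp (v ^ 2 / 9) := Real.exp_pos _
    have hv2 : v ^ 2 ≤ 1 := by nlinarith
    have h5 : 1 ≤ (1 + (v / 2) ^ 2 / 2) * (1 - v ^ 2 / 9) := by nlinarith [sq_nonneg v]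
    have h6 : Real.exp (v ^ 2 / 9) * (1 - v ^ 2 / 9) ≤ 1 := by
      calc Real.exp (v ^ 2 / 9) * (1 - v ^ 2 / 9) ≤
          Real.exp (v ^ 2 / 9) * Real.exp (-(v ^ 2 / 9)) := mul_le_mul_of_nonneg_left h2 h4.le
        _ = 1 := h3
    have h7 : 0 < 1 - v ^ 2 / 9 := by linarith
    have h8 : Real.exp (v ^ 2 / 9) ≤ 1 + (v / 2) ^ 2 / 2 := by
      by_contra hcon
      push Not at hcon
      nlinarith
    exact h8.trans hc
  have hcp : 0 < Real.cosh (v / 2) := Real.cosh_pos _
  rw [e1, Real.log_mul (by positivity) (Real.exp_pos _).ne', Real.log_exp,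
    Real.log_mul (by norm_num) hcp.ne']
  have h2 : v ^ 2 / 9 ≤ Real.log (Real.cosh (v / 2)) := by
    rw [Real.le_log_iff_exp_le hcp]
    exact hexp
  linarith

theorem cont_log : Continuous (fun v : ℝ => Real.log (1 + Real.exp (-v))) := by
  refine Continuous.log (by fun_prop) fun v => ?_
  have := Real.exp_pos (-v)
  positivity

/-- a lower bound for `cst 2` -/
theorem cst_two : 5 / 4 * Real.log 2 ^ 2 + Real.log 2 ^ 3 / 27 ≤ cst 2 := by
  have hL : 0 < Real.log 2 := Real.log_pos (by norm_num)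
  have hL1 : Real.log 2 ≤ 1 := by
    have := Real.log_two_lt_d9
    linarith
  have h1 : ∫ v in (0 : ℝ)..(Real.log 2), (Real.log 2 - v / 2 + v ^ 2 / 9) ≤
      ∫ v in (0 : ℝ)..(Real.log 2), Real.log (1 + Real.exp (-v)) := by
    apply intervalIntegral.integral_mono_on hL.le
    · exact (by fun_prop : Continuous fun v : ℝ => Real.log 2 - v / 2 + v ^ 2 / 9).intervalIntegrable _ _
    · exact cont_log.intervalIntegrable _ _
    · intro v hv
      exact log_lower v hv.1 (hv.2.trans hL1)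
  have h2 : ∫ v in (0 : ℝ)..(Real.log 2), (Real.log 2 - v / 2 + v ^ 2 / 9) =
      3 / 4 * Real.log 2 ^ 2 + Real.log 2 ^ 3 / 27 := by
    rw [intervalIntegral.integral_add, intervalIntegral.integral_sub]
    · simp only [intervalIntegral.integral_const, smul_eq_mul, intervalIntegral.integral_div,
        integral_id, integral_pow]
      ring
    · exact (by fun_prop : Continuous fun v : ℝ => Real.log 2).intervalIntegrable _ _
    · exact (by fun_prop : Continuous fun v : ℝ => v / 2).intervalIntegrable _ _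
    · exact (by fun_prop : Continuous fun v : ℝ => Real.log 2 - v / 2).intervalIntegrable _ _
    · exact (by fun_prop : Continuous fun v : ℝ => v ^ 2 / 9).intervalIntegrable _ _
  rw [h2] at h1
  unfold cst
  linarith

/-- the constants -/
structure Cns (a : ℝ) (K : ℕ) : Prop where
  a23 : a = 2 ∨ a = 3
  K0 : (0 : ℝ) < K
  K3 : (340 : ℝ) ≤ K
  L0 : 0 < Real.log a
  c0 : 0 < cst a
  t1 : 4 * (Real.log a / K) ≤ 0.011
  Y1 : 300 ≤ cst a / (Real.log a / K)
  e1 : cst a / Real.log a * (1 + 1 / (4 * (K : ℝ))) ≤ 1.04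
  c1 : (1 + a) / 2 * cst a ≤ Real.pi

theorem cns (h4 : B04) {a : ℝ} {K : ℕ} (h : Adm a K) : Cns a K := by
  obtain ⟨-, b2, b3, b4⟩ := h4
  have hpi := Real.pi_gt_three
  rcases h with ⟨rfl, hK⟩ | ⟨rfl, hK⟩
  · have hK' : (340 : ℝ) ≤ K := by exact_mod_cast hK
    have hK0 : (0 : ℝ) < K := by linarith
    have l1 := Real.log_two_gt_d9
    have l2 := Real.log_two_lt_d9
    have hc := cst_two
    set L := Real.log 2 with hL
    have hL0 : 0 < L := by linarith
    have hc0 : 0 < cst 2 := by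
      have : 0 < 5 / 4 * L ^ 2 + L ^ 3 / 27 := by positivity
      linarith
    refine ⟨Or.inl rfl, hK0, hK', hL0, hc0, ?_, ?_, ?_, ?_⟩
    · have h1 : 4 * (L / K) = 4 * L / K := by ring
      rw [h1, div_le_iff₀ hK0]
      nlinarith
    · rw [le_div_iff₀ (by positivity)]
      have h1 : 300 * (L / K) = 300 * L / K := by ring
      rw [h1, div_le_iff₀ hK0]
      have h2 : (5 / 4 * L ^ 2 + L ^ 3 / 27) * 340 ≤ cst 2 * K :=
        mul_le_mul hc hK' (by norm_num) hc0.le
      have h3 : 300 ≤ (5 / 4 * L + L ^ 2 / 27) * 340 := by nlinarith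
      have h4 : 300 * L ≤ (5 / 4 * L ^ 2 + L ^ 3 / 27) * 340 := by nlinarith
      linarith
    · have h1 : 1 / (4 * (K : ℝ)) ≤ 1 / 1000 := by
        apply one_div_le_one_div_of_le (by norm_num)
        linarith
      have h2 : cst 2 / L ≤ 0.9 := by
        rw [div_le_iff₀ hL0]
        nlinarith
      have h3 : 0 < cst 2 / L := by positivity
      nlinarith
    · nlinarith
  · have hK' : (400 : ℝ) ≤ K := by exact_mod_cast hK
    have hK0 : (0 : ℝ) < K := by linarith
    have l1 := Real.log_three_gt_d9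
    have l2 := Real.log_three_lt_d9
    set L := Real.log 3 with hL
    have hL0 : 0 < L := by linarith
    have hc0 : 0 < cst 3 := by
      have : 0 < L ^ 2 / 2 := by positivity
      linarith
    refine ⟨Or.inr rfl, hK0, by linarith, hL0, hc0, ?_, ?_, ?_, ?_⟩
    · have h1 : 4 * (L / K) = 4 * L / K := by ring
      rw [h1, div_le_iff₀ hK0]
      nlinarith
    · rw [le_div_iff₀ (by positivity)]
      have h1 : 300 * (L / K) = 300 * L / K := by ring
      rw [h1, div_le_iff₀ hK0]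
      have h2 : (1 : ℝ) * 400 ≤ cst 3 * K := by
        apply mul_le_mul _ hK' (by norm_num) hc0.le
        nlinarith
      linarith
    · have h1 : 1 / (4 * (K : ℝ)) ≤ 1 / 1600 := by
        apply one_div_le_one_div_of_le (by norm_num)
        linarith
      have h2 : cst 3 / L ≤ 1.03 := by
        rw [div_le_iff₀ hL0]
        nlinarith
      have h3 : 0 < cst 3 / L := by positivity
      nlinarith
    · nlinarith

/-- the pointwise bound -/
theorem point {t x Y c κ ν : ℝ} (hY : Y = c / t) (ht : 0 < t) (hY0 : 0 ≤ Y) (ht1 : 4 * t ≤ 0.011)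
    (hη : |ν * t - Y| ≤ 1.04) {E : ℂ} (hE : ‖E‖ ≤ 2 * t) :
    Real.exp (-κ) * (Real.exp (Y / (1 + x ^ 2)) * (0.989 - (Y * |x| ^ 3 + 1.04 * |x|) ^ 2 / 2)) ≤
      (Complex.exp ((c : ℂ) / ((t : ℂ) * (1 - (x : ℂ) * Complex.I)) - (κ : ℂ) + E) *
        Complex.exp (-((ν : ℂ) * ((t * x : ℝ) : ℂ) * Complex.I))).re := by
  set A : ℝ := Y / (1 + x ^ 2) - κ with hA
  set P : ℝ := Y * x / (1 + x ^ 2) - ν * t * x with hP
  have hx2 : (1 : ℝ) + x ^ 2 ≠ 0 := by positivity
  have hx2C : (1 : ℂ) + (x : ℂ) ^ 2 ≠ 0 := by exact_mod_cast hx2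
  have htC : (t : ℂ) ≠ 0 := by exact_mod_cast ht.ne'
  have h1 : (c : ℂ) / ((t : ℂ) * (1 - (x : ℂ) * Complex.I)) =
      ((Y / (1 + x ^ 2) : ℝ) : ℂ) + ((Y * x / (1 + x ^ 2) : ℝ) : ℂ) * Complex.I := by
    have h2 : (1 - (x : ℂ) * Complex.I) * (1 + (x : ℂ) * Complex.I) = 1 + (x : ℂ) ^ 2 := by
      ring_nf
      rw [Complex.I_sq]
      ring
    have h3 : (1 - (x : ℂ) * Complex.I) ≠ 0 := by
      intro h0
      rw [h0, zero_mul] at h2
      exact hx2C h2.symm
    rw [hY]
    push_cast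
    rw [div_eq_iff (mul_ne_zero htC h3)]
    field_simp
    linear_combination (-(c : ℂ)) * h2
  have h2 : Complex.exp ((c : ℂ) / ((t : ℂ) * (1 - (x : ℂ) * Complex.I)) - (κ : ℂ) + E) *
      Complex.exp (-((ν : ℂ) * ((t * x : ℝ) : ℂ) * Complex.I)) =
      ((Real.exp A : ℝ) : ℂ) * (Complex.exp ((P : ℂ) * Complex.I) +
        Complex.exp ((P : ℂ) * Complex.I) * (Complex.exp E - 1)) := by
    have h3 : Complex.exp ((P : ℂ) * Complex.I) +
        Complex.exp ((P : ℂ) * Complex.I) * (Complex.exp E - 1) =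
        Complex.exp ((P : ℂ) * Complex.I + E) := by
      rw [Complex.exp_add]
      ring
    rw [h3, Complex.ofReal_exp, ← Complex.exp_add, ← Complex.exp_add]
    congr 1
    rw [h1, hA, hP]
    push_cast
    ring
  have h3 : 0.989 - P ^ 2 / 2 ≤ (Complex.exp ((P : ℂ) * Complex.I) +
        Complex.exp ((P : ℂ) * Complex.I) * (Complex.exp E - 1)).re := by
    rw [Complex.add_re, Complex.exp_ofReal_mul_I_re]
    have h4 : ‖Complex.exp ((P : ℂ) * Complex.I) * (Complex.exp E - 1)‖ ≤ 4 * t := by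
      rw [norm_mul, Complex.norm_exp_ofReal_mul_I, one_mul]
      have h5 : ‖E‖ ≤ 1 := by linarith
      have := Complex.norm_exp_sub_one_le h5
      linarith
    have h5 := (abs_le.1 (Complex.abs_re_le_norm
      (Complex.exp ((P : ℂ) * Complex.I) * (Complex.exp E - 1)))).1
    have h6 := Real.one_sub_sq_div_two_le_cos (x := P)
    linarith
  have hPb : |P| ≤ Y * |x| ^ 3 + 1.04 * |x| := by
    have h4 : P = -(Y * x ^ 3 / (1 + x ^ 2)) - (ν * t - Y) * x := by
      rw [hP]
      field_simp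
      ring
    rw [h4]
    refine (abs_sub _ _).trans (add_le_add ?_ ?_)
    · rw [abs_neg, abs_div, abs_mul, abs_of_nonneg hY0, abs_pow,
        abs_of_pos (by positivity : 0 < 1 + x ^ 2)]
      apply div_le_self (by positivity)
      nlinarith [sq_nonneg x]
    · rw [abs_mul]
      gcongr
  have hP2 : P ^ 2 ≤ (Y * |x| ^ 3 + 1.04 * |x|) ^ 2 := by
    rw [← sq_abs P]
    exact pow_le_pow_left₀ (abs_nonneg _) hPb 2
  rw [h2, Complex.re_ofReal_mul]
  have h5 : Real.exp A = Real.exp (-κ) * Real.exp (Y / (1 + x ^ 2)) := by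
    rw [← Real.exp_add]
    congr 1
    rw [hA]
    ring
  rw [h5, mul_assoc]
  apply mul_le_mul_of_nonneg_left _ (Real.exp_pos _).le
  apply mul_le_mul_of_nonneg_left _ (Real.exp_pos _).le
  linarith

theorem t_E06 (h5 : E05) (ha : E06a) (h4 : B04) (hc : A02) : E06 := by
  intro a K n hA t ht hn
  obtain ⟨a23, K0, K3, L0, c0, t1, Y1, e1, c1⟩ := cns h4 hA
  rw [← ht] at t1 Y1
  have ht0 : 0 < t := by rw [ht]; positivity
  set c := cst a with hc'
  set Y := c / t with hY
  set κ := Real.log ((1 + a) / 2) / 2 with hκ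
  have hY0 : 0 < Y := by linarith
  have hη : |(n : ℝ) * t - Y| ≤ 1.04 := by
    have h1 : (n : ℝ) * t - Y = Y * ((n : ℝ) * t ^ 2 / c - 1) := by
      rw [hY]
      field_simp
    rw [h1, abs_mul, abs_of_pos hY0]
    have h2 : Y * |(n : ℝ) * t ^ 2 / c - 1| ≤ Y * (1 / (K : ℝ) + 1 / (4 * (K : ℝ) ^ 2)) :=
      mul_le_mul_of_nonneg_left hn hY0.le
    have h3 : Y * (1 / (K : ℝ) + 1 / (4 * (K : ℝ) ^ 2)) =
        c / Real.log a * (1 + 1 / (4 * (K : ℝ))) := by
      rw [hY, ht]
      field_simp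
    linarith
  have hcont : Continuous (fun θ : ℝ => FF a (pt t θ)) := by
    rcases a23 with rfl | rfl
    · have := (hc 2 t ht0).1
      push_cast at this
      exact this
    · have := (hc 3 t ht0).1
      push_cast at this
      exact this
  have hcont2 : Continuous (fun θ : ℝ =>
      FF a (pt t θ) * Complex.exp (-((n : ℂ) * (θ : ℂ) * Complex.I))) :=
    hcont.mul (by fun_prop)
  have hsub : ∫ θ in (-t)..t, FF a (pt t θ) * Complex.exp (-((n : ℂ) * (θ : ℂ) * Complex.I)) =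
      t • ∫ x in (-1 : ℝ)..1, FF a (pt t (t * x)) *
        Complex.exp (-((n : ℂ) * ((t * x : ℝ) : ℂ) * Complex.I)) := by
    rw [intervalIntegral.smul_integral_comp_mul_left
      (f := fun θ => FF a (pt t θ) * Complex.exp (-((n : ℂ) * (θ : ℂ) * Complex.I))) t]
    rw [mul_neg, mul_one]
  have hcont3 : Continuous (fun x : ℝ => FF a (pt t (t * x)) *
      Complex.exp (-((n : ℂ) * ((t * x : ℝ) : ℂ) * Complex.I))) :=
    hcont2.comp (by fun_prop : Continuous fun x : ℝ => t * x)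
  have hre : (∫ x in (-1 : ℝ)..1, FF a (pt t (t * x)) *
        Complex.exp (-((n : ℂ) * ((t * x : ℝ) : ℂ) * Complex.I))).re =
      ∫ x in (-1 : ℝ)..1, (FF a (pt t (t * x)) *
        Complex.exp (-((n : ℂ) * ((t * x : ℝ) : ℂ) * Complex.I))).re := by
    have h1 := Complex.reCLM.intervalIntegral_comp_comm (μ := volume)
      (hcont3.intervalIntegrable (-1) 1)
    exact h1.symm
  have hlow : Real.exp (-κ) * ∫ x in (-1 : ℝ)..1, Real.exp (Y / (1 + x ^ 2)) *
      (0.989 - (Y * |x| ^ 3 + 1.04 * |x|) ^ 2 / 2) ≤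
      ∫ x in (-1 : ℝ)..1, (FF a (pt t (t * x)) *
        Complex.exp (-((n : ℂ) * ((t * x : ℝ) : ℂ) * Complex.I))).re := by
    rw [← intervalIntegral.integral_const_mul]
    apply intervalIntegral.integral_mono_on (by norm_num)
    · apply Continuous.intervalIntegrable
      have hne : ∀ x : ℝ, 1 + x ^ 2 ≠ 0 := fun x => by positivity
      have h1 : Continuous fun x : ℝ => Y / (1 + x ^ 2) :=
        continuous_const.div (by fun_prop) hne
      have h2 : Continuous fun x : ℝ => |x| := continuous_abs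
      fun_prop
    · exact (Complex.continuous_re.comp hcont3).intervalIntegrable _ _
    · intro x hx
      have hx1 : |x| ≤ 1 := abs_le.2 ⟨hx.1, hx.2⟩
      obtain ⟨E, hE, hFF⟩ := h5 a t x a23 ht0 hx1
      rw [hFF]
      exact point hY ht0 hY0.le t1 hη hE
  have hint := ha Y Y1
  have hconst : √(t) ≤ Real.exp (-κ) * √(Real.pi / Y) := by
    have h1 : Real.exp (-κ) = √(2 / (1 + a)) := by
      have hpos : (0 : ℝ) < (1 + a) / 2 := by rcases a23 with rfl | rfl <;> norm_num
      have h2 : (2 : ℝ) / (1 + a) = ((1 + a) / 2)⁻¹ := by rw [inv_div]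
      rw [h2, hκ, Real.sqrt_eq_rpow, Real.rpow_def_of_pos (inv_pos.2 hpos), Real.log_inv]
      congr 1
      ring
    rw [h1, ← Real.sqrt_mul (by rcases a23 with rfl | rfl <;> norm_num)]
    apply Real.sqrt_le_sqrt
    have hpos : (0 : ℝ) < 1 + a := by rcases a23 with rfl | rfl <;> norm_num
    rw [hY]
    have h3 : 2 / (1 + a) * (Real.pi / (c / t)) = t * (Real.pi / ((1 + a) / 2 * c)) := by
      field_simp
    rw [h3]
    have h4 : 1 ≤ Real.pi / ((1 + a) / 2 * c) := by
      rw [le_div_iff₀ (by positivity), one_mul]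
      exact c1
    nlinarith
  rw [hsub, Complex.smul_re, hre, smul_eq_mul]
  calc 1 / 2 * (t * √t) * Real.exp (c / t)
      = t * (√t * (1 / 2 * Real.exp Y)) := by rw [hY]; ring
    _ ≤ t * (Real.exp (-κ) * √(Real.pi / Y) * (1 / 2 * Real.exp Y)) := by gcongr
    _ = t * (Real.exp (-κ) * (1 / 2 * √(Real.pi / Y) * Real.exp Y)) := by ring
    _ ≤ t * (Real.exp (-κ) * ∫ x in (-1 : ℝ)..1, Real.exp (Y / (1 + x ^ 2)) *
        (0.989 - (Y * |x| ^ 3 + 1.04 * |x|) ^ 2 / 2)) := by gcongr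
    _ ≤ _ := by gcongr

end Pool.Agent.N433.MI
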